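import Pool.Agent.Q120.RZ.Stm

/-!
# Project RZ, job ACL: all random sets with bounded relative entropy
-/

set_option autoImplicit false

namespace Pool.Agent.Q58.RZ

open Finset MeasureTheory Filter Pool.Agent.Q120.ET Pool.Agent.Q120.GM Pool.Agent.Q120.GE
  Pool.Agent.Q120.RZ
open scoped Topology

/-- the event of a large deviation in a block -/
def Fk (θ : ℝ) (k : ℕ) (S : Set ℕ) : Prop :=
  ∃ x : ℕ, 2 ^ k ≤ x ∧ x < 2 ^ (k + 1) ∧ (2 : ℝ) ^ (θ * k) ≤ bdev S pc k x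

lemma num'_tr {Ω : Type} [MeasurableSpace Ω] (A : Ω → Set ℕ) {k : ℕ} (hk : 2 ≤ k) (ω : Ω) {x : ℕ}
    (hx : x < 2 ^ (k + 1)) :
    num' ((tr A (low (k + 1)) ω : Finset ℕ) : Set ℕ) (Icc (2 ^ k) x) =
      num' (A ω) (Icc (2 ^ k) x) := by
  classical
  unfold num'
  congr 1
  ext n
  simp only [mem_filter, mem_Icc, Finset.mem_coe]
  rw [mem_tr, low, mem_Ico]
  have h4 : 4 ≤ 2 ^ k := by
    calc 4 = 2 ^ 2 := by norm_num
      _ ≤ 2 ^ k := Nat.pow_le_pow_right (by norm_num) hk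
  constructor
  · rintro ⟨h1, _, h3⟩
    exact ⟨h1, h3⟩
  · rintro ⟨h1, h2⟩
    exact ⟨h1, ⟨by omega, by omega⟩, h2⟩

lemma Fk_tr {Ω : Type} [MeasurableSpace Ω] (A : Ω → Set ℕ) {k : ℕ} (hk : 2 ≤ k) (θ : ℝ) (ω : Ω) :
    Fk θ k ((tr A (low (k + 1)) ω : Finset ℕ) : Set ℕ) ↔ Fk θ k (A ω) := by
  unfold Fk bdev
  refine exists_congr fun x => and_congr_right fun _ => and_congr_right fun hx => ?_
  rw [num'_tr A hk ω hx]

/-- one exponent -/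
lemma one_theta (hT : J_TAIL) (hB : J_BLK) (hS : J_SUMB) {Ω : Type} [MeasurableSpace Ω]
    (μ : Measure Ω) [IsProbabilityMeasure μ] (A : Ω → Set ℕ) (hA : IsRandomSet A) (δ η : ℝ)
    (hδ : 0 ≤ δ) (hη : 0 < η) (hη1 : (1 + δ) / 2 + η ≤ 1)
    (hD : ∀ᶠ k : ℕ in atTop, relEntropy μ A (low (k + 1)) ≤ (2 : ℝ) ^ ((δ + η) * k)) :
    ∀ᵐ ω ∂μ, ∃ C : ℝ, ∀ x : ℕ, 1 ≤ x →
      |(cnt (A ω) x : ℝ) - exs pc x| ≤ C * (x : ℝ) ^ ((1 + δ) / 2 + η) := by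
  classical
  set θ : ℝ := (1 + δ) / 2 + η with hθ
  obtain ⟨K₀, hK⟩ := hB hT θ (by rw [hθ]; linarith) hη1
  have hsum : Summable fun k : ℕ => 32 * ((2 : ℝ) ^ (-η)) ^ k := by
    refine (summable_geometric_of_lt_one (by positivity) ?_).mul_left 32
    exact Real.rpow_lt_one_of_one_lt_of_neg (by norm_num) (by linarith)
  have hb : ∀ᶠ k : ℕ in atTop, μ.real {ω | Fk θ k (A ω)} ≤ 32 * ((2 : ℝ) ^ (-η)) ^ k := by
    filter_upwards [hD, eventually_ge_atTop K₀, eventually_ge_atTop 2] with k h1 h2 h3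
    set u : ℝ := (2 : ℝ) ^ ((2 * θ - 1) * k) / 16 with hu
    have hu0 : 0 < u := by rw [hu]; positivity
    have h4 := Pool.Agent.Q111.GE.t_ENT Pool.Agent.Q111.GE.t_LAW k
      (fun T : Finset ℕ => Fk θ k (T : Set ℕ)) u hu0 (by
        intro Ω' _ μ' _ A' hA'
        have e1 : {ω | Fk θ k ((tr A' (low (k + 1)) ω : Finset ℕ) : Set ℕ)} =
            {ω | Fk θ k (A' ω)} := by
          ext ω
          exact Fk_tr A' h3 θ ω
        rw [e1]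
        refine hK k h2 Ω' μ' pc A' hA' fun n hn => ?_
        unfold pc
        rw [if_pos hn]
        have hn3 : (3 : ℝ) ≤ n := by exact_mod_cast hn
        have : 0 < Real.log n := Real.log_pos (by linarith)
        exact div_le_div_of_nonneg_right (by norm_num) this.le) Ω μ A hA
    have e1 : {ω | Fk θ k ((tr A (low (k + 1)) ω : Finset ℕ) : Set ℕ)} = {ω | Fk θ k (A ω)} := by
      ext ω
      exact Fk_tr A h3 θ ω
    rw [e1] at h4
    refine h4.trans ?_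
    rw [div_le_iff₀ hu0]
    have e2 : (1 : ℝ) ≤ (2 : ℝ) ^ ((δ + η) * k) :=
      Real.one_le_rpow (by norm_num) (by positivity)
    have e3 : 32 * ((2 : ℝ) ^ (-η)) ^ k * u = 2 * (2 : ℝ) ^ ((δ + η) * k) := by
      rw [hu, ← Real.rpow_natCast, ← Real.rpow_mul (by norm_num)]
      have e4 : (2 : ℝ) ^ ((δ + η) * k) = (2 : ℝ) ^ (-η * k) * (2 : ℝ) ^ ((2 * θ - 1) * k) := by
        rw [← Real.rpow_add (by norm_num)]
        congr 1
        rw [hθ]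
        ring
      rw [e4]
      ring
    rw [e3]
    linarith
  filter_upwards [Pool.Agent.Q120.GM.bc hsum hb] with ω hω
  refine hS (A ω) pc θ (by rw [hθ]; linarith) (fun n => ⟨Pool.Agent.Q111.GE.pc_nonneg n,
    Pool.Agent.Q111.GE.pc_le_one n⟩) ?_
  filter_upwards [hω] with k hk x hx1 hx2
  by_contra hcon
  push Not at hcon
  exact hk ⟨x, hx1, hx2, hcon.le⟩

theorem t_ACL : J_ACL := by
  intro hT hB hS Ω _ μ _ A hA δ hδ hδ1 hD
  have h1 : ∀ j : ℕ, ∀ᵐ ω ∂μ, ∃ C : ℝ, ∀ x : ℕ, 1 ≤ x →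
      |(cnt (A ω) x : ℝ) - exs pc x| ≤ C * (x : ℝ) ^ ((1 + δ) / 2 + (1 - δ) / 2 / (j + 1)) := by
    intro j
    have hj : (0 : ℝ) < (1 - δ) / 2 / (j + 1) := by
      have : 0 < 1 - δ := by linarith
      positivity
    refine one_theta hT hB hS μ A hA δ _ hδ hj ?_ (hD _ hj)
    have h2 : (1 - δ) / 2 / (j + 1) ≤ (1 - δ) / 2 :=
      div_le_self (by linarith) (by
        have : (0 : ℝ) ≤ j := Nat.cast_nonneg j
        linarith)
    linarith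
  filter_upwards [ae_all_iff.2 h1] with ω hω ε hε
  obtain ⟨j, hj⟩ := exists_nat_gt ((1 - δ) / 2 / ε)
  obtain ⟨C, hC⟩ := hω j
  refine ⟨|C|, fun x hx => (hC x hx).trans ?_⟩
  have hx1 : (1 : ℝ) ≤ x := by exact_mod_cast hx
  have h2 : (1 - δ) / 2 / (j + 1) ≤ ε := by
    rw [div_lt_iff₀ hε] at hj
    rw [div_le_iff₀ (by positivity)]
    nlinarith
  have h3 : (x : ℝ) ^ ((1 + δ) / 2 + (1 - δ) / 2 / (j + 1)) ≤ (x : ℝ) ^ ((1 + δ) / 2 + ε) :=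
    Real.rpow_le_rpow_of_exponent_le hx1 (by linarith)
  have h4 : 0 ≤ (x : ℝ) ^ ((1 + δ) / 2 + (1 - δ) / 2 / (j + 1)) := by positivity
  calc C * (x : ℝ) ^ ((1 + δ) / 2 + (1 - δ) / 2 / (j + 1))
      ≤ |C| * (x : ℝ) ^ ((1 + δ) / 2 + (1 - δ) / 2 / (j + 1)) :=
        mul_le_mul_of_nonneg_right (le_abs_self C) h4
    _ ≤ |C| * (x : ℝ) ^ ((1 + δ) / 2 + ε) := mul_le_mul_of_nonneg_left h3 (abs_nonneg C)

end Pool.Agent.Q58.RZ
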